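import Pool.Agent.U945.AP.Gen

set_option autoImplicit false

/-!
# The multiplicative rank of the rational numbers `x` with `t log x` in a space of logarithms, up to a
finite dimensional space
-/

namespace Pool.Agent.U945.RV

open Module
open Pool.Agent.U945.AP (lg lg_mul lg_zpow lg_one lg_eq_zero alg_exp_lg not_mem_of_alg)
open Pool.Agent.H301R2.SSE (QB mem_QB Lt Lt_one Lt_log Lg mem_Lg)

/-- multiplicatively independent families -/
def MI {n : ℕ} (x : Fin n → ℚ) : Prop := ∀ k : Fin n → ℤ, ∏ i, x i ^ k i = 1 → k = 0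

lemma lg_prod {n : ℕ} (x : Fin n → ℚ) (hx : ∀ i, 0 < x i) (k : Fin n → ℤ) (s : Finset (Fin n)) :
    lg (∏ i ∈ s, x i ^ k i) = ∑ i ∈ s, (k i : ℂ) * lg (x i) := by
  classical
  induction s using Finset.induction_on with
  | empty => simp [lg_one]
  | insert a s ha ih =>
    rw [Finset.prod_insert ha, Finset.sum_insert ha, lg_mul, lg_zpow, ih]
    · exact (zpow_pos (hx a) _).ne'
    · exact (Finset.prod_pos (fun i _ => zpow_pos (hx i) _)).ne'

lemma indep_lg {n : ℕ} {x : Fin n → ℚ} (hx : ∀ i, 0 < x i) (h : MI x) :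
    LinearIndependent ℚ (fun i => lg (x i)) := by
  rw [← LinearIndependent.iff_fractionRing ℤ ℚ, Fintype.linearIndependent_iff]
  intro g hg
  have h1 : lg (∏ i, x i ^ g i) = 0 := by
    rw [lg_prod x hx g Finset.univ, ← hg]
    apply Finset.sum_congr rfl
    intro i _
    rw [zsmul_eq_mul]
  have h2 : ∏ i, x i ^ g i = 1 :=
    lg_eq_zero (Finset.prod_pos (fun i _ => zpow_pos (hx i) _)) h1
  intro i
  rw [h g h2]
  rfl

lemma indep_QB {n : ℕ} {x : Fin n → ℚ} (hx : ∀ i, 0 < x i) (h : MI x) :
    LinearIndependent QB (fun i => lg (x i)) := by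
  rw [Fintype.linearIndependent_iff]
  intro g hg
  have hb := (Pool.Agent.H297R2.baker_inhom (fun i => lg (x i)) (fun i => alg_exp_lg (hx i))
    (indep_lg hx h) 0 isAlgebraic_zero (fun i => (g i : ℂ)) (fun i => mem_QB.1 (g i).2) (by
      rw [zero_add]; exact hg)).2
  intro i
  exact Subtype.ext (hb i)

/-- the rank, for transcendental `t` -/
theorem rank_trans {t : ℂ} (ht : Transcendental ℚ t) (V : Submodule QB ℂ)
    [FiniteDimensional QB V] {n : ℕ} {x : Fin n → ℚ} (hx : ∀ i, 0 < x i) (h : MI x)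
    (hm : ∀ i, t * lg (x i) ∈ Lt ⊔ V) : n ≤ finrank QB V + 2 := by
  by_contra hcon
  push Not at hcon
  set W : Submodule QB ℂ := Submodule.span QB (Set.range (fun i => lg (x i))) with hW
  have hfr : finrank QB W = n := by
    rw [hW, finrank_span_eq_card (indep_QB hx h), Fintype.card_fin]
  have : FiniteDimensional QB W := by
    rw [hW]
    exact FiniteDimensional.span_of_finite QB (Set.finite_range _)
  set φ : W →ₗ[QB] (ℂ ⧸ Lt) := (Lt.mkQ.comp (LinearMap.mulLeft QB t)).comp W.subtype with hφ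
  have hφa : ∀ w : W, φ w = Lt.mkQ (t * (w : ℂ)) := fun w => rfl
  have hrange : LinearMap.range φ ≤ V.map Lt.mkQ := by
    rintro _ ⟨w, rfl⟩
    rw [hφa]
    have hw : ∀ z ∈ W, t * z ∈ Lt ⊔ V := by
      intro z hz
      rw [hW] at hz
      induction hz using Submodule.span_induction with
      | mem z hz =>
        obtain ⟨i, rfl⟩ := hz
        exact hm i
      | zero => rw [mul_zero]; exact zero_mem _
      | add a b _ _ ha hb => rw [mul_add]; exact add_mem ha hb
      | smul c a _ ha => rw [mul_smul_comm]; exact Submodule.smul_mem _ c ha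
    obtain ⟨u, hu, v, hv, huv⟩ := Submodule.mem_sup.1 (hw w w.2)
    rw [← huv, map_add]
    have : Lt.mkQ u = 0 := by
      rw [Submodule.mkQ_apply]
      exact (Submodule.Quotient.mk_eq_zero Lt).2 hu
    rw [this, zero_add]
    exact Submodule.mem_map_of_mem hv
  have : FiniteDimensional QB (V.map Lt.mkQ) := inferInstance
  have h1 : finrank QB (LinearMap.range φ) ≤ finrank QB V :=
    (Submodule.finrank_mono hrange).trans (Submodule.finrank_map_le _ _)
  have h2 := LinearMap.finrank_range_add_finrank_ker φ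
  rw [hfr] at h2
  have h3 : 3 ≤ finrank QB (LinearMap.ker φ) := by omega
  obtain ⟨f, hf⟩ := exists_linearIndependent_of_le_finrank h3
  have hWL : W ≤ Lt := by
    rw [hW, Submodule.span_le]
    rintro _ ⟨i, rfl⟩
    exact Lt_log (alg_exp_lg (hx i))
  refine Pool.Agent.N770.six t (fun c hc => ht (by rw [hc]; exact mem_QB.1 c.2))
    (fun j => ((f j : W) : ℂ)) ?_ (fun j => hWL (f j : W).2) (fun j => ?_)
  · have h4 := hf.map' (LinearMap.ker φ).subtype (Submodule.ker_subtype _)
    have h5 := h4.map' W.subtype (Submodule.ker_subtype _)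
    exact h5
  · have h4 : φ (f j : W) = 0 := (f j).2
    rw [hφa, Submodule.mkQ_apply] at h4
    exact (Submodule.Quotient.mk_eq_zero Lt).1 h4

/-- the rank, for algebraic irrational `t` -/
theorem rank_alg {t : ℂ} (ht : IsAlgebraic ℚ t) (hirr : ∀ q : ℚ, t ≠ q) (V : Submodule ℚ ℂ)
    [FiniteDimensional ℚ V] {n : ℕ} {x : Fin n → ℚ} (hx : ∀ i, 0 < x i) (h : MI x)
    (hm : ∀ i, t * lg (x i) ∈ Lg ⊔ V) : n ≤ finrank ℚ V := by
  set W : Submodule ℚ ℂ := Submodule.span ℚ (Set.range (fun i => lg (x i))) with hW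
  have hfr : finrank ℚ W = n := by
    rw [hW, finrank_span_eq_card (indep_lg hx h), Fintype.card_fin]
  have : FiniteDimensional ℚ W := by
    rw [hW]
    exact FiniteDimensional.span_of_finite ℚ (Set.finite_range _)
  set φ : W →ₗ[ℚ] (ℂ ⧸ Lg) := (Lg.mkQ.comp (LinearMap.mulLeft ℚ t)).comp W.subtype with hφ
  have hφa : ∀ w : W, φ w = Lg.mkQ (t * (w : ℂ)) := fun w => rfl
  have hrange : LinearMap.range φ ≤ V.map Lg.mkQ := by
    rintro _ ⟨w, rfl⟩
    rw [hφa]
    have hw : ∀ z ∈ W, t * z ∈ Lg ⊔ V := by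
      intro z hz
      rw [hW] at hz
      induction hz using Submodule.span_induction with
      | mem z hz =>
        obtain ⟨i, rfl⟩ := hz
        exact hm i
      | zero => rw [mul_zero]; exact zero_mem _
      | add a b _ _ ha hb => rw [mul_add]; exact add_mem ha hb
      | smul c a _ ha => rw [mul_smul_comm]; exact Submodule.smul_mem _ c ha
    obtain ⟨u, hu, v, hv, huv⟩ := Submodule.mem_sup.1 (hw w w.2)
    rw [← huv, map_add]
    have : Lg.mkQ u = 0 := by
      rw [Submodule.mkQ_apply]
      exact (Submodule.Quotient.mk_eq_zero Lg).2 hu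
    rw [this, zero_add]
    exact Submodule.mem_map_of_mem hv
  have h1 : finrank ℚ (LinearMap.range φ) ≤ finrank ℚ V :=
    (Submodule.finrank_mono hrange).trans (Submodule.finrank_map_le _ _)
  have hker : LinearMap.ker φ = ⊥ := by
    rw [LinearMap.ker_eq_bot']
    rintro ⟨w, hw⟩ hφw
    rw [hφa, Submodule.mkQ_apply] at hφw
    have h4 : t * w ∈ Lg := (Submodule.Quotient.mk_eq_zero Lg).1 hφw
    -- a multiple of `w` is the logarithm of a rational number
    have hmul : ∀ z ∈ W, ∃ N : ℤ, N ≠ 0 ∧ ∃ y : ℚ, 0 < y ∧ (N : ℂ) * z = lg y := by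
      intro z hz
      rw [hW] at hz
      induction hz using Submodule.span_induction with
      | mem z hz =>
        obtain ⟨i, rfl⟩ := hz
        exact ⟨1, one_ne_zero, x i, hx i, by simp⟩
      | zero => exact ⟨1, one_ne_zero, 1, one_pos, by simp [lg_one]⟩
      | add a b _ _ ha hb =>
        obtain ⟨N, hN, y, hy, h1⟩ := ha
        obtain ⟨N', hN', y', hy', h1'⟩ := hb
        refine ⟨N * N', mul_ne_zero hN hN', y ^ N' * y' ^ N, by positivity, ?_⟩
        rw [lg_mul (by positivity) (by positivity), lg_zpow, lg_zpow, ← h1, ← h1']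
        push_cast
        ring
      | smul c a _ ha =>
        obtain ⟨N, hN, y, hy, h1⟩ := ha
        refine ⟨N * c.den, mul_ne_zero hN (by exact_mod_cast c.den_nz), y ^ c.num, by positivity, ?_⟩
        rw [lg_zpow, ← h1, Rat.smul_def]
        have hc : (c.den : ℂ) * (c : ℂ) = c.num := by
          have h5 : (c.den : ℚ) * c = c.num := Rat.den_mul_eq_num c
          have h6 := congrArg (fun q : ℚ => (q : ℂ)) h5
          push_cast at h6
          exact h6
        push_cast
        linear_combination (N * a) * hc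
    obtain ⟨N, hN, y, hy, hNy⟩ := hmul w hw
    have h5 : t * lg y ∈ Lg := by
      rw [← hNy]
      have := Lg.smul_mem (N : ℚ) h4
      rw [Rat.smul_def] at this
      convert this using 1
      push_cast
      ring
    have hy1 : y = 1 := by
      by_contra hy1
      exact not_mem_of_alg ht hirr hy hy1 h5
    rw [hy1, lg_one] at hNy
    have hNC : (N : ℂ) ≠ 0 := by exact_mod_cast hN
    have hw0 : w = 0 := (mul_eq_zero.1 hNy).resolve_left hNC
    exact Subtype.ext hw0
  have h2 := LinearMap.finrank_range_add_finrank_ker φ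
  rw [hfr, hker, finrank_bot] at h2
  omega

/-- a set of positive rational numbers of bounded rank -/
def BR (Γ : Set ℚ) : Prop :=
  (∀ x ∈ Γ, 0 < x) ∧ ∃ N : ℕ, ∀ (n : ℕ) (x : Fin n → ℚ), (∀ i, x i ∈ Γ) → MI x → n ≤ N

theorem br_trans {t : ℂ} (ht : Transcendental ℚ t) (V : Submodule QB ℂ)
    [FiniteDimensional QB V] : BR {x : ℚ | 0 < x ∧ t * lg x ∈ Lt ⊔ V} :=
  ⟨fun _ hx => hx.1, _, fun _ _ hx h => rank_trans ht V (fun i => (hx i).1) h (fun i => (hx i).2)⟩

theorem br_irr {t : ℂ} (hirr : ∀ q : ℚ, t ≠ q) (V : Submodule ℚ ℂ)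
    [FiniteDimensional ℚ V] : BR {x : ℚ | 0 < x ∧ t * lg x ∈ Lg ⊔ V} := by
  by_cases ht : IsAlgebraic ℚ t
  · exact ⟨fun _ hx => hx.1, _, fun _ _ hx h => rank_alg ht hirr V (fun i => (hx i).1) h
      (fun i => (hx i).2)⟩
  · set V' : Submodule QB ℂ := Submodule.span QB (V : Set ℂ) with hV'
    have : FiniteDimensional QB V' := by
      obtain ⟨s, hs⟩ := (Submodule.fg_iff_finiteDimensional V).2 inferInstance
      have key : ∀ z ∈ Submodule.span ℚ (s : Set ℂ), z ∈ Submodule.span QB (s : Set ℂ) := by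
        intro z hz
        induction hz using Submodule.span_induction with
        | mem z hz => exact Submodule.subset_span hz
        | zero => exact zero_mem _
        | add a b _ _ ha hb => exact add_mem ha hb
        | smul c a _ ha =>
          have h1 := Submodule.smul_mem (Submodule.span QB (s : Set ℂ)) (algebraMap ℚ QB c) ha
          rw [algebraMap_smul] at h1
          exact h1
      have : V' = Submodule.span QB (s : Set ℂ) := by
        apply le_antisymm
        · rw [hV', Submodule.span_le]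
          intro z hz
          exact key z (by rw [hs]; exact hz)
        · rw [Submodule.span_le]
          intro z hz
          apply Submodule.subset_span
          have : z ∈ Submodule.span ℚ (s : Set ℂ) := Submodule.subset_span hz
          rw [hs] at this
          exact this
      rw [this]
      exact FiniteDimensional.span_finset QB s
    obtain ⟨h1, N, hN⟩ := br_trans (t := t) ht V'
    refine ⟨fun _ hx => hx.1, N, fun n x hx h => hN n x (fun i => ⟨(hx i).1, ?_⟩) h⟩
    obtain ⟨u, hu, v, hv, huv⟩ := Submodule.mem_sup.1 (hx i).2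
    rw [← huv]
    exact Submodule.add_mem_sup (Lt_log (mem_Lg.1 hu)) (Submodule.subset_span hv)

/-- only finitely many primes -/
theorem primes_finite {Γ : Set ℚ} (h : BR Γ) :
    {p : ℕ | p.Prime ∧ ∃ x ∈ Γ, padicValRat p x ≠ 0}.Finite := by
  classical
  obtain ⟨hpos, N, hN⟩ := h
  -- a maximal independent family
  have hex : ∃ n : ℕ, ∃ x : Fin n → ℚ, (∀ i, x i ∈ Γ) ∧ MI x :=
    ⟨0, Fin.elim0, fun i => i.elim0, fun k _ => Subsingleton.elim _ _⟩
  set A : Set ℕ := {n | ∃ x : Fin n → ℚ, (∀ i, x i ∈ Γ) ∧ MI x} with hA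
  have hAf : A.Finite := (Set.finite_Iic N).subset (fun n ⟨x, hx, hx'⟩ => hN n x hx hx')
  have hAne : A.Nonempty := hex
  obtain ⟨n, hn, hmax⟩ := hAf.exists_maximal hAne
  obtain ⟨x, hx, hmi⟩ := hn
  have hfin : ∀ y : ℚ, y ≠ 0 → {p : ℕ | p.Prime ∧ padicValRat p y ≠ 0}.Finite := by
    intro y hy
    refine ((y.num.natAbs.primeFactors ∪ y.den.primeFactors : Finset ℕ).finite_toSet).subset ?_
    rintro p ⟨hp, hv⟩
    rw [Finset.mem_coe, Finset.mem_union, Nat.mem_primeFactors, Nat.mem_primeFactors]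
    by_contra hcon
    push Not at hcon
    have h1 : ¬ p ∣ y.num.natAbs := fun hd => Int.natAbs_ne_zero.2 (Rat.num_ne_zero.2 hy)
      (hcon.1 hp hd)
    have h2 : ¬ p ∣ y.den := fun hd => y.den_nz (hcon.2 hp hd)
    apply hv
    have : padicValRat p y = (padicValNat p y.num.natAbs : ℤ) - padicValNat p y.den := rfl
    rw [this, padicValNat.eq_zero_of_not_dvd h1, padicValNat.eq_zero_of_not_dvd h2]
    rfl
  refine (Set.finite_iUnion (fun i => hfin (x i) (hpos _ (hx i)).ne')).subset ?_
  rintro p ⟨hp, y, hy, hv⟩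
  have : Fact p.Prime := ⟨hp⟩
  by_contra hcon
  simp only [Set.mem_iUnion, Set.mem_ofPred_eq, not_exists, not_and, not_not] at hcon
  have hdep : ¬ MI (Fin.snoc x y : Fin (n + 1) → ℚ) := by
    intro hmi'
    have hmem : n + 1 ∈ A := by
      refine ⟨Fin.snoc x y, fun i => ?_, hmi'⟩
      refine Fin.lastCases ?_ (fun i => ?_) i
      · rw [Fin.snoc_last]; exact hy
      · rw [Fin.snoc_castSucc]; exact hx i
    have := hmax hmem (by omega)
    omega
  unfold MI at hdep
  push Not at hdep
  obtain ⟨k, hk, hk0⟩ := hdep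
  rw [Fin.prod_univ_castSucc] at hk
  simp only [Fin.snoc_castSucc, Fin.snoc_last] at hk
  have hy0 : y ≠ 0 := (hpos y hy).ne'
  have hP : ∏ i : Fin n, x i ^ k i.castSucc ≠ 0 :=
    Finset.prod_ne_zero_iff.2 (fun i _ => zpow_ne_zero _ (hpos _ (hx i)).ne')
  have hvP : padicValRat p (∏ i : Fin n, x i ^ k i.castSucc) = 0 := by
    have : ∀ s : Finset (Fin n), padicValRat p (∏ i ∈ s, x i ^ k i.castSucc) = 0 := by
      intro s
      induction s using Finset.induction_on with
      | empty => simp
      | insert a s ha ih =>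
        rw [Finset.prod_insert ha, padicValRat.mul (zpow_ne_zero _ (hpos _ (hx a)).ne')
          (Finset.prod_ne_zero_iff.2 (fun i _ => zpow_ne_zero _ (hpos _ (hx i)).ne')), ih,
          padicValRat.zpow, hcon a hp, mul_zero, add_zero]
    exact this Finset.univ
  have h1 := congrArg (padicValRat p) hk
  rw [padicValRat.mul hP (zpow_ne_zero _ hy0), hvP, zero_add, padicValRat.zpow, padicValRat.one]
    at h1
  rcases mul_eq_zero.1 h1 with h2 | h2
  · rw [h2, zpow_zero, mul_one] at hk
    have h3 := hmi (fun i => k i.castSucc) hk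
    apply hk0
    funext i
    refine Fin.lastCases ?_ (fun i => ?_) i
    · exact h2
    · exact congrFun h3 i
  · exact hv h2

end Pool.Agent.U945.RV
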