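import Pool.Agent.U945.RV.Pol

set_option autoImplicit false

/-!
# Values of rational functions composed of given primes: rational coefficients, zeros and poles
-/

namespace Pool.Agent.U945.RV

open Polynomial Finset UniqueFactorizationMonoid

/-- the number of distinct complex roots -/
noncomputable def nr (F : ℚ[X]) : ℕ := (F.map (algebraMap ℚ ℂ)).roots.toFinset.card

lemma mem_rts {F : ℚ[X]} (hF : F ≠ 0) (z : ℂ) :
    z ∈ (F.map (algebraMap ℚ ℂ)).roots.toFinset ↔ aeval z F = 0 := by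
  rw [Multiset.mem_toFinset, mem_roots (Polynomial.map_ne_zero hF), IsRoot.def, eval_map_algebraMap]

lemma rad_degree {F : ℚ[X]} (hF : F ≠ 0) : (radical F).natDegree = nr F := by
  have hR0 : radical F ≠ 0 := radical_ne_zero
  have hsep : (radical F).Separable := PerfectField.separable_iff_squarefree.2 squarefree_radical
  have h1 : ((radical F).map (algebraMap ℚ ℂ)).roots.toFinset =
      (F.map (algebraMap ℚ ℂ)).roots.toFinset := by
    ext z
    rw [mem_rts hR0, mem_rts hF]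
    constructor
    · intro h
      obtain ⟨G, hG⟩ := radical_dvd_self (a := F)
      rw [hG, map_mul, h, zero_mul]
    · intro h
      have hz : IsIntegral ℚ z := IsAlgebraic.isIntegral ⟨F, hF, h⟩
      have hirr := minpoly.irreducible hz
      have hd : minpoly ℚ z ∣ F := minpoly.dvd ℚ z h
      have hd' : minpoly ℚ z ∣ radical F := (dvd_radical_iff_of_irreducible hirr hF).2 hd
      obtain ⟨G, hG⟩ := hd'
      rw [hG, map_mul, minpoly.aeval, zero_mul]
  unfold nr
  rw [← h1, Multiset.toFinset_card_of_nodup (nodup_roots hsep.map),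
    IsAlgClosed.card_roots_eq_natDegree, natDegree_map]

lemma clear (F : ℚ[X]) : ∃ b : ℤ, b ≠ 0 ∧ ∃ F' : ℤ[X], F'.map (Int.castRingHom ℚ) = C (b : ℚ) * F := by
  obtain ⟨b, hb, h⟩ := IsLocalization.integerNormalization_spec (nonZeroDivisors ℤ) F
  refine ⟨b, nonZeroDivisors.ne_zero hb,
    IsLocalization.integerNormalization (nonZeroDivisors ℤ) F, ?_⟩
  have e : algebraMap ℤ ℚ = Int.castRingHom ℚ := rfl
  rw [e] at h
  rw [h]
  ext i
  rw [coeff_smul, coeff_C_mul, zsmul_eq_mul]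

lemma eval_of_map {F : ℚ[X]} {F' : ℤ[X]} {b : ℤ} (h : F'.map (Int.castRingHom ℚ) = C (b : ℚ) * F)
    (q : ℚ) : aeval q F' = b * F.eval q := by
  have h1 := congrArg (eval q) h
  rw [eval_mul, eval_C] at h1
  rw [← h1, eval_map]
  rfl

/-- **Finiteness**, for rational functions with at least three zeros and poles -/
theorem finite_rat {P Q : ℚ[X]} (hP : P ≠ 0) (hQ : Q ≠ 0) (hco : IsCoprime P Q)
    (h3 : 3 ≤ nr (P * Q) + if P.natDegree = Q.natDegree then 0 else 1) (S : Finset ℕ) :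
    {q : ℚ | P.eval q ≠ 0 ∧ Q.eval q ≠ 0 ∧
      ∀ p : ℕ, p.Prime → padicValRat p (P.eval q / Q.eval q) ≠ 0 → p ∈ S}.Finite := by
  obtain ⟨u, v, huv⟩ := hco
  have hPQ : P * Q ≠ 0 := mul_ne_zero hP hQ
  obtain ⟨G, hG⟩ := radical_dvd_self (a := P * Q)
  obtain ⟨b1, hb1, P', hP'⟩ := clear P
  obtain ⟨b2, hb2, Q', hQ'⟩ := clear Q
  obtain ⟨b3, hb3, u', hu'⟩ := clear u
  obtain ⟨b4, hb4, v', hv'⟩ := clear v
  obtain ⟨b5, hb5, f, hf⟩ := clear (radical (P * Q))
  obtain ⟨b6, hb6, G', hG'⟩ := clear G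
  have hinj : Function.Injective (Polynomial.map (Int.castRingHom ℚ)) :=
    map_injective _ Int.cast_injective
  have hP2 : (C b2 * P').map (Int.castRingHom ℚ) = C ((b1 * b2 : ℤ) : ℚ) * P := by
    rw [Polynomial.map_mul, Polynomial.map_C, hP']
    push_cast
    rw [C_mul, eq_intCast]
    ring
  have hQ2 : (C b1 * Q').map (Int.castRingHom ℚ) = C ((b1 * b2 : ℤ) : ℚ) * Q := by
    rw [Polynomial.map_mul, Polynomial.map_C, hQ']
    push_cast
    rw [C_mul, eq_intCast]
    ring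
  have hN : b1 * b2 ≠ 0 := mul_ne_zero hb1 hb2
  have hNQ : (((b1 * b2 : ℤ)) : ℚ) ≠ 0 := by exact_mod_cast hN
  have hd : ∀ {F : ℚ[X]} {F' : ℤ[X]} {b : ℤ}, b ≠ 0 →
      F'.map (Int.castRingHom ℚ) = C (b : ℚ) * F → F'.natDegree = F.natDegree := by
    intro F F' b hb h
    rw [← natDegree_map_eq_of_injective (f := Int.castRingHom ℚ) Int.cast_injective F', h,
      natDegree_C_mul (by exact_mod_cast hb)]
  have hne : ∀ {F : ℚ[X]} {F' : ℤ[X]} {b : ℤ}, b ≠ 0 →
      F'.map (Int.castRingHom ℚ) = C (b : ℚ) * F → F ≠ 0 → F' ≠ 0 := by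
    intro F F' b hb h hF hF'
    rw [hF', Polynomial.map_zero] at h
    exact mul_ne_zero (C_ne_zero.2 (by exact_mod_cast hb)) hF h.symm
  have hf1 := hd hb5 hf
  rw [rad_degree hPQ] at hf1
  refine (finite_int (P := C b2 * P') (Q := C b1 * Q') (f := f) (g := C ((b1 * b2) ^ 2) * G')
    (U := C (b4) * u') (V := C b3 * v') (k := b1 * b2 * b3 * b4) (c := b5 * b6)
    (mul_ne_zero (mul_ne_zero hN hb3) hb4) (mul_ne_zero hb5 hb6) (hne hN hP2 hP) (hne hN hQ2 hQ)
    ?_ ?_ (n := f.natDegree + if P.natDegree = Q.natDegree then 0 else 1) ?_ ?_ ?_ S).subset ?_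
  · apply hinj
    simp only [Polynomial.map_add, Polynomial.map_mul, Polynomial.map_C, hP', hQ', hu', hv']
    simp only [eq_intCast, Int.cast_mul, C_mul]
    linear_combination (C (b1 : ℚ) * C (b2 : ℚ) * C (b3 : ℚ) * C (b4 : ℚ)) * huv
  · apply hinj
    simp only [Polynomial.map_mul, Polynomial.map_C, hP', hQ', hf, hG']
    simp only [eq_intCast, Int.cast_mul, Int.cast_pow, C_mul, C_pow]
    linear_combination (-C (b5 : ℚ) * C (b6 : ℚ) * (C (b1 : ℚ) * C (b2 : ℚ)) ^ 2) * hG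
  · rw [hd hN hP2, hd hN hQ2]
  · rw [hf1]
    exact h3
  · rw [hf]
    refine Squarefree.squarefree_of_dvd ?_ (squarefree_radical (a := P * Q))
    refine ⟨C ((b5 : ℚ)⁻¹), ?_⟩
    have : C (b5 : ℚ) * C ((b5 : ℚ)⁻¹) = 1 := by
      rw [← C_mul, mul_inv_cancel₀ (by exact_mod_cast hb5), C_1]
    linear_combination (-radical (P * Q)) * this
  · rintro q ⟨h1, h2, h⟩
    have e1 := eval_of_map hP2 q
    have e2 := eval_of_map hQ2 q
    refine ⟨?_, ?_, ?_⟩
    · rw [e1]
      exact mul_ne_zero hNQ h1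
    · rw [e2]
      exact mul_ne_zero hNQ h2
    · rw [e1, e2, mul_div_mul_left _ _ hNQ]
      exact h

end Pool.Agent.U945.RV
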