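import Pool.Agent.U945.RV.Rat
import Pool.Agent.U945.RV.Rank

set_option autoImplicit false

/-!
# Rational functions with at most two zeros and poles
-/

namespace Pool.Agent.U945.RV

open Polynomial Finset
open Pool.Agent.U945.AP (lg lg_mul lg_zpow lg_one lg_eq_zero alg_exp_lg not_mem_of_alg)
open Pool.Agent.H301R2.SSE (QB mem_QB Lt Lt_one Lt_log Lg mem_Lg)

/-- a polynomial with at most one complex root -/
lemma single_root {P : ℚ[X]} (hP : P ≠ 0) (h : nr P ≤ 1) :
    ∃ (c α : ℚ), c ≠ 0 ∧ P = C c * (X - C α) ^ P.natDegree := by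
  rcases Nat.eq_zero_or_pos P.natDegree with h0 | h0
  · refine ⟨P.coeff 0, 0, ?_, ?_⟩
    · intro h1
      apply hP
      rw [eq_C_of_natDegree_eq_zero h0, h1, C_0]
    · rw [h0, pow_zero, mul_one]
      exact eq_C_of_natDegree_eq_zero h0
  · set d := P.natDegree with hd
    have hsp : (P.map (algebraMap ℚ ℂ)).Splits := IsAlgClosed.splits _
    have hcard : (P.map (algebraMap ℚ ℂ)).roots.card = d := by
      rw [IsAlgClosed.card_roots_eq_natDegree, natDegree_map]
    have hex : ∃ z, z ∈ (P.map (algebraMap ℚ ℂ)).roots := by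
      apply Multiset.exists_mem_of_ne_zero
      intro h1
      rw [h1, Multiset.card_zero] at hcard
      omega
    obtain ⟨z, hz⟩ := hex
    have hrep : (P.map (algebraMap ℚ ℂ)).roots = Multiset.replicate d z := by
      rw [Multiset.eq_replicate]
      refine ⟨hcard, fun w hw => ?_⟩
      exact Finset.card_le_one.1 h w (Multiset.mem_toFinset.2 hw) z (Multiset.mem_toFinset.2 hz)
    have hprod := hsp.eq_prod_roots
    rw [hrep, Multiset.map_replicate, Multiset.prod_replicate, leadingCoeff_map] at hprod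
    have hc0 : P.leadingCoeff ≠ 0 := leadingCoeff_ne_zero.2 hP
    have hdQ : (d : ℚ) ≠ 0 := by exact_mod_cast h0.ne'
    set α : ℚ := -P.coeff (d - 1) / (P.leadingCoeff * d) with hα
    have hzα : z = (α : ℂ) := by
      have h1 := congrArg (fun F => F.coeff (d - 1)) hprod
      simp only [coeff_map, coeff_C_mul] at h1
      rw [sub_eq_add_neg, ← C_neg, coeff_X_add_C_pow] at h1
      have h2 : d - (d - 1) = 1 := by omega
      have h3 : d.choose (d - 1) = d := by
        have h4 : d.choose (d - 1) = d.choose 1 := Nat.choose_symm_of_eq_add (by omega)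
        rw [h4, Nat.choose_one_right]
      rw [h2, h3, pow_one, eq_ratCast, eq_ratCast] at h1
      rw [hα]
      push_cast
      rw [h1]
      have h5 : (P.leadingCoeff : ℂ) ≠ 0 := by exact_mod_cast hc0
      have h6 : (d : ℂ) ≠ 0 := by exact_mod_cast h0.ne'
      field_simp
    refine ⟨P.leadingCoeff, α, hc0, ?_⟩
    apply map_injective (algebraMap ℚ ℂ) (algebraMap ℚ ℂ).injective
    rw [hprod, hzα]
    simp only [Polynomial.map_mul, Polynomial.map_pow, Polynomial.map_sub, Polynomial.map_C,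
      Polynomial.map_X, eq_ratCast]

lemma nr_mul {P Q : ℚ[X]} (hP : P ≠ 0) (hQ : Q ≠ 0) (hco : IsCoprime P Q) :
    nr (P * Q) = nr P + nr Q := by
  unfold nr
  rw [← Finset.card_union_of_disjoint]
  · congr 1
    ext z
    rw [mem_rts (mul_ne_zero hP hQ), Finset.mem_union, mem_rts hP, mem_rts hQ, map_mul, mul_eq_zero]
  · rw [Finset.disjoint_left]
    intro z h1 h2
    rw [mem_rts hP] at h1
    rw [mem_rts hQ] at h2
    obtain ⟨u, v, huv⟩ := hco
    have h3 := congrArg (aeval z) huv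
    rw [map_add, map_mul, map_mul, h1, h2, mul_zero, mul_zero, add_zero, map_one] at h3
    exact zero_ne_one h3

lemma nr_eq_zero {P : ℚ[X]} (_hP : P ≠ 0) (h : nr P = 0) : P.natDegree = 0 := by
  by_contra hd
  have hcard : (P.map (algebraMap ℚ ℂ)).roots.card = P.natDegree := by
    rw [IsAlgClosed.card_roots_eq_natDegree, natDegree_map]
  unfold nr at h
  rw [Finset.card_eq_zero, Multiset.toFinset_eq_empty] at h
  rw [h, Multiset.card_zero] at hcard
  exact hd hcard.symm

lemma nr_of_degree {P : ℚ[X]} (h : P.natDegree = 0) : nr P = 0 := by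
  rw [eq_C_of_natDegree_eq_zero h]
  unfold nr
  rw [Polynomial.map_C, roots_C]
  rfl

/-- the values of a rational function with at most two zeros and poles -/
theorem low_values {P Q : ℚ[X]} (hP : P ≠ 0) (hQ : Q ≠ 0) (hco : IsCoprime P Q)
    (h3 : nr (P * Q) + (if P.natDegree = Q.natDegree then 0 else 1) < 3) :
    ∃ (c : ℚ) (s : ℤ) (φ : ℚ → ℚ), c ≠ 0 ∧ Set.InjOn φ {y | y ≠ 1} ∧
      ∀ y : ℚ, y ≠ 0 → y ≠ 1 → P.eval (φ y) ≠ 0 ∧ Q.eval (φ y) ≠ 0 ∧
      P.eval (φ y) / Q.eval (φ y) = c * y ^ s := by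
  rw [nr_mul hP hQ hco] at h3
  have h1 : nr P ≤ 1 := by
    by_contra h
    push Not at h
    have hQ0 : nr Q = 0 := by omega
    have hQd := nr_eq_zero hQ hQ0
    have hPd : P.natDegree ≠ 0 := by
      intro h0
      rw [nr_of_degree h0] at h
      omega
    rw [if_neg (by omega)] at h3
    omega
  have h2 : nr Q ≤ 1 := by
    by_contra h
    push Not at h
    have hP0 : nr P = 0 := by omega
    have hPd := nr_eq_zero hP hP0
    have hQd : Q.natDegree ≠ 0 := by
      intro h0
      rw [nr_of_degree h0] at h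
      omega
    rw [if_neg (by omega)] at h3
    omega
  obtain ⟨c, α, hc, hPe⟩ := single_root hP h1
  obtain ⟨c', β, hc', hQe⟩ := single_root hQ h2
  have evP : ∀ q : ℚ, P.eval q = c * (q - α) ^ P.natDegree := by
    intro q
    conv_lhs => rw [hPe]
    simp
  have evQ : ∀ q : ℚ, Q.eval q = c' * (q - β) ^ Q.natDegree := by
    intro q
    conv_lhs => rw [hQe]
    simp
  by_cases hQd : Q.natDegree = 0
  · refine ⟨c / c', P.natDegree, fun y => α + y, div_ne_zero hc hc', ?_, fun y hy0 hy1 => ?_⟩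
    · intro y _ y' _ h
      exact add_left_cancel h
    · simp only [evP, evQ, hQd, pow_zero, mul_one, add_sub_cancel_left]
      refine ⟨mul_ne_zero hc (pow_ne_zero _ hy0), hc', ?_⟩
      rw [zpow_natCast]
      field_simp
  by_cases hPd : P.natDegree = 0
  · refine ⟨c / c', -Q.natDegree, fun y => β + y, div_ne_zero hc hc', ?_, fun y hy0 hy1 => ?_⟩
    · intro y _ y' _ h
      exact add_left_cancel h
    · simp only [evP, evQ, hPd, pow_zero, mul_one, add_sub_cancel_left]
      refine ⟨hc, mul_ne_zero hc' (pow_ne_zero _ hy0), ?_⟩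
      rw [zpow_neg, zpow_natCast]
      field_simp
  have hP1 : nr P ≠ 0 := fun h => hPd (nr_eq_zero hP h)
  have hQ1 : nr Q ≠ 0 := fun h => hQd (nr_eq_zero hQ h)
  have hdeg : P.natDegree = Q.natDegree := by
    by_contra hne
    rw [if_neg hne] at h3
    omega
  have hαβ : α ≠ β := by
    rintro rfl
    obtain ⟨u, v, huv⟩ := hco
    have h4 := congrArg (eval α) huv
    rw [eval_add, eval_mul, eval_mul, evP, evQ, sub_self, zero_pow hPd, zero_pow hQd, eval_one] at h4
    simp at h4
  have hsub : α - β ≠ 0 := sub_ne_zero.2 hαβ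
  refine ⟨c / c', P.natDegree, fun y => (α - y * β) / (1 - y), div_ne_zero hc hc', ?_,
    fun y hy0 hy1 => ?_⟩
  · intro y hy y' hy' h
    have hy1 : 1 - y ≠ 0 := sub_ne_zero.2 (fun h => hy h.symm)
    have hy1' : 1 - y' ≠ 0 := sub_ne_zero.2 (fun h => hy' h.symm)
    change (α - y * β) / (1 - y) = (α - y' * β) / (1 - y') at h
    rw [div_eq_div_iff hy1 hy1'] at h
    have h5 : (α - β) * (y - y') = 0 := by linear_combination h
    exact sub_eq_zero.1 ((mul_eq_zero.1 h5).resolve_left hsub)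
  · have hy1' : 1 - y ≠ 0 := sub_ne_zero.2 (fun h => hy1 h.symm)
    have e1 : (α - y * β) / (1 - y) - α = y * (α - β) / (1 - y) := by field_simp; ring
    have e2 : (α - y * β) / (1 - y) - β = (α - β) / (1 - y) := by field_simp; ring
    simp only [evP, evQ, e1, e2]
    refine ⟨mul_ne_zero hc (pow_ne_zero _ (div_ne_zero (mul_ne_zero hy0 hsub) hy1')),
      mul_ne_zero hc' (pow_ne_zero _ (div_ne_zero hsub hy1')), ?_⟩
    rw [← hdeg, zpow_natCast, mul_div_mul_comm, ← div_pow]
    congr 2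
    field_simp

/-- an exponent -/
lemma exists_exp {g : ℚ} (hg : 0 < g) (hg1 : g ≠ 1) :
    ∃ (t : ℝ) (p : ℕ), Transcendental ℚ t ∧ 0 < p ∧ (g : ℝ) ^ t = p := by
  have hgR : (0 : ℝ) < g := by exact_mod_cast hg
  have hlg : Real.log (g : ℝ) ≠ 0 := by
    intro h
    have := Real.eq_one_of_pos_of_log_eq_zero hgR h
    exact hg1 (by exact_mod_cast this)
  have hval : ∀ p : ℕ, 0 < p → (g : ℝ) ^ (Real.log p / Real.log g) = p := by
    intro p hp
    have hpR : (0 : ℝ) < p := by exact_mod_cast hp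
    rw [Real.rpow_def_of_pos hgR, mul_div_cancel₀ _ hlg, Real.exp_log hpR]
  -- a rational or transcendental number
  have halt : ∀ p : ℕ, 0 < p → Transcendental ℚ (Real.log p / Real.log g) ∨
      ∃ r : ℚ, Real.log p = r * Real.log g := by
    intro p hp
    by_cases hr : ∃ r : ℚ, Real.log p = r * Real.log g
    · exact Or.inr hr
    · left
      intro halg
      have halgC : IsAlgebraic ℚ ((Real.log p / Real.log g : ℝ) : ℂ) := halg.algebraMap
      refine not_mem_of_alg halgC (fun q hq => hr ⟨q, ?_⟩) hg hg1 ?_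
      · have h1 : Real.log p / Real.log g = q := by exact_mod_cast hq
        rw [div_eq_iff hlg] at h1
        exact h1
      · rw [mem_Lg]
        have h1 : ((Real.log p / Real.log g : ℝ) : ℂ) * lg g = ((Real.log p : ℝ) : ℂ) := by
          unfold lg
          rw [← Complex.ofReal_mul, div_mul_cancel₀ _ hlg]
        have hpR : (0 : ℝ) < p := by exact_mod_cast hp
        rw [h1, ← Complex.ofReal_exp, Real.exp_log hpR]
        push_cast
        exact isAlgebraic_natCast p
  by_cases h2 : Transcendental ℚ (Real.log (2 : ℕ) / Real.log g)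
  · exact ⟨_, 2, h2, by norm_num, hval 2 (by norm_num)⟩
  by_cases h3 : Transcendental ℚ (Real.log (3 : ℕ) / Real.log g)
  · exact ⟨_, 3, h3, by norm_num, hval 3 (by norm_num)⟩
  exfalso
  obtain ⟨a, ha⟩ := (halt 2 (by norm_num)).resolve_left h2
  obtain ⟨b, hb⟩ := (halt 3 (by norm_num)).resolve_left h3
  have hl2 : 0 < Real.log (2 : ℕ) := Real.log_pos (by norm_num)
  have ha0 : a ≠ 0 := by
    rintro rfl
    rw [Rat.cast_zero, zero_mul] at ha
    exact hl2.ne' ha
  -- `log 3 * a = b * log 2`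
  have h4 : Real.log (3 : ℕ) * a = Real.log (2 : ℕ) * b := by
    rw [ha, hb]
    ring
  set A : ℤ := a.num * b.den with hA
  set B : ℤ := b.num * a.den with hB
  have haR : (a : ℝ) * a.den = a.num := by
    have := Rat.mul_den_eq_num a
    exact_mod_cast this
  have hbR : (b : ℝ) * b.den = b.num := by
    have := Rat.mul_den_eq_num b
    exact_mod_cast this
  have h5 : Real.log (3 : ℕ) * A = Real.log (2 : ℕ) * B := by
    rw [hA, hB]
    push_cast
    rw [← haR, ← hbR]
    push_cast at h4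
    linear_combination ((a.den : ℝ) * b.den) * h4
  have h6 : (3 : ℚ) ^ A = 2 ^ B := by
    have h7 : Real.log (((3 : ℚ) ^ A : ℚ) : ℝ) = Real.log (((2 : ℚ) ^ B : ℚ) : ℝ) := by
      rw [Rat.cast_zpow, Rat.cast_zpow, Real.log_zpow, Real.log_zpow]
      push_cast at h5 ⊢
      linarith
    have h8 := Real.log_injOn_pos (by
      rw [Set.mem_Ioi]
      exact_mod_cast (by positivity : (0 : ℚ) < 3 ^ A)) (by
      rw [Set.mem_Ioi]
      exact_mod_cast (by positivity : (0 : ℚ) < 2 ^ B)) h7
    exact_mod_cast h8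
  have h9 := congrArg (padicValRat 3) h6
  rw [padicValRat.zpow, padicValRat.zpow] at h9
  have e3 : padicValRat 3 (3 : ℚ) = 1 := by
    have := padicValRat.self (p := 3) (by norm_num)
    exact_mod_cast this
  have e2 : padicValRat 3 (2 : ℚ) = 0 := by
    have : padicValRat 3 ((2 : ℕ) : ℚ) = 0 := by
      rw [padicValRat.of_nat, padicValNat.eq_zero_of_not_dvd (by norm_num)]
      rfl
    exact_mod_cast this
  rw [e3, e2, mul_one, mul_zero] at h9
  rw [hA] at h9
  rcases mul_eq_zero.1 h9 with h | h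
  · exact ha0 (Rat.num_eq_zero.1 h)
  · exact b.den_nz (by exact_mod_cast h)

/-- **Rational functions with at most two zeros and poles.** -/
theorem low {P Q : ℚ[X]} (hP : P ≠ 0) (hQ : Q ≠ 0) (hco : IsCoprime P Q)
    (h3 : nr (P * Q) + (if P.natDegree = Q.natDegree then 0 else 1) < 3) :
    ∃ t : ℝ, Transcendental ℚ t ∧ {q : ℚ | P.eval q ≠ 0 ∧ Q.eval q ≠ 0 ∧
      ∃ y : ℚ, |((P.eval q / Q.eval q : ℚ) : ℝ)| ^ t = y}.Infinite := by
  obtain ⟨c, s, φ, hc, hφ, hval⟩ := low_values hP hQ hco h3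
  -- the base
  obtain ⟨g, e, hg, hg1, hge⟩ : ∃ (g : ℚ) (e : ℤ), 0 < g ∧ g ≠ 1 ∧ |c| = g ^ e := by
    by_cases h : |c| = 1
    · exact ⟨2, 0, by norm_num, by norm_num, by rw [h, zpow_zero]⟩
    · exact ⟨|c|, 1, abs_pos.2 hc, h, (zpow_one _).symm⟩
  obtain ⟨t, p, ht, hp, hgt⟩ := exists_exp hg hg1
  refine ⟨t, ht, ?_⟩
  have hpow : ∀ j : ℕ, g ^ (j + 1) ≠ 1 := by
    intro j h
    exact hg1 ((pow_eq_one_iff_of_nonneg hg.le (by omega)).1 h)
  refine Set.infinite_of_injective_forall_mem (f := fun j : ℕ => φ (g ^ (j + 1))) ?_ (fun j => ?_)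
  · intro i j hij
    have h1 := hφ (hpow i) (hpow j) hij
    have := pow_right_injective₀ hg hg1 h1
    omega
  · obtain ⟨h1, h2, h4⟩ := hval (g ^ (j + 1)) (by positivity) (hpow j)
    refine ⟨h1, h2, (p : ℚ) ^ (e + (j + 1) * s), ?_⟩
    have h5 : |((P.eval (φ (g ^ (j + 1))) / Q.eval (φ (g ^ (j + 1))) : ℚ) : ℝ)| =
        (g : ℝ) ^ (e + (j + 1) * s) := by
      have h6 : g ^ e * (g ^ (j + 1)) ^ s = g ^ (e + (j + 1) * s) := by
        rw [zpow_add₀ hg.ne', zpow_mul, ← zpow_natCast g (j + 1)]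
        push_cast
        rfl
      rw [← Rat.cast_abs, h4, abs_mul, abs_zpow, abs_of_pos (by positivity : 0 < g ^ (j + 1)), hge,
        h6, Rat.cast_zpow]
    have hgR : (0 : ℝ) < g := by exact_mod_cast hg
    rw [h5, ← Real.rpow_intCast, ← Real.rpow_mul hgR.le, mul_comm, Real.rpow_mul hgR.le, hgt,
      Real.rpow_intCast]
    push_cast
    rfl

end Pool.Agent.U945.RV
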