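import Pool.Agent.TH498.HF.TM2

set_option autoImplicit false

/-!
# Values of rational functions composed of given primes
-/

namespace Pool.Agent.U945.RV

open Polynomial Finset
open Pool.Agent.W4.VC (hom Sqf)

variable {p : ℕ} [hp : Fact p.Prime]

lemma coe_aeval (f : ℤ[X]) (q : ℚ) : ((aeval q f : ℚ) : ℚ_[p]) = aeval (q : ℚ_[p]) f := by
  have h := Polynomial.aeval_algebraMap_apply ℚ_[p] q f
  exact h.symm

lemma norm_aeval_le {z : ℚ_[p]} (hz : ‖z‖ ≤ 1) (f : ℤ[X]) : ‖aeval z f‖ ≤ 1 := by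
  rw [aeval_eq_sum_range]
  refine IsUltrametricDist.norm_sum_le_of_forall_le_of_nonneg zero_le_one (fun i _ => ?_)
  rw [zsmul_eq_mul, norm_mul, norm_pow]
  have h1 : ‖((f.coeff i : ℤ) : ℚ_[p])‖ ≤ 1 := Padic.norm_int_le_one _
  have h2 : ‖z‖ ^ i ≤ 1 := pow_le_one₀ (norm_nonneg _) hz
  calc _ ≤ 1 * 1 := mul_le_mul h1 h2 (by positivity) zero_le_one
    _ = 1 := one_mul 1

lemma norm_aeval_big {z : ℚ_[p]} (hz : 1 < ‖z‖) (f : ℤ[X])
    (hf : ‖((f.leadingCoeff : ℤ) : ℚ_[p])‖ = 1) : ‖aeval z f‖ = ‖z‖ ^ f.natDegree := by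
  rw [aeval_eq_sum_range, Finset.sum_range_succ]
  have h1 : ‖f.coeff f.natDegree • z ^ f.natDegree‖ = ‖z‖ ^ f.natDegree := by
    rw [zsmul_eq_mul, norm_mul, norm_pow]
    have : f.coeff f.natDegree = f.leadingCoeff := rfl
    rw [this, hf, one_mul]
  have h2 : ‖∑ i ∈ range f.natDegree, f.coeff i • z ^ i‖ < ‖z‖ ^ f.natDegree := by
    rcases Nat.eq_zero_or_pos f.natDegree with h0 | h0
    · rw [h0]
      simp
    · refine lt_of_le_of_lt (b := ‖z‖ ^ (f.natDegree - 1)) ?_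
        (pow_lt_pow_right₀ hz (by omega))
      refine IsUltrametricDist.norm_sum_le_of_forall_le_of_nonneg (by positivity) (fun i hi => ?_)
      rw [zsmul_eq_mul, norm_mul, norm_pow]
      have h1 : ‖((f.coeff i : ℤ) : ℚ_[p])‖ ≤ 1 := Padic.norm_int_le_one _
      have h2 : ‖z‖ ^ i ≤ ‖z‖ ^ (f.natDegree - 1) :=
        pow_le_pow_right₀ hz.le (by rw [mem_range] at hi; omega)
      calc _ ≤ 1 * ‖z‖ ^ (f.natDegree - 1) := mul_le_mul h1 h2 (by positivity) zero_le_one
        _ = _ := one_mul _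
  rw [Padic.add_eq_max_of_ne (by rw [h1]; exact h2.ne), h1]
  exact max_eq_right h2.le

/-- the form and the polynomial -/
lemma hom_eq (f : ℤ[X]) {n : ℕ} (hn : f.natDegree ≤ n) (a b : ℤ) (hb : b ≠ 0) :
    ((hom f n a b : ℤ) : ℚ) = (b : ℚ) ^ n * aeval ((a : ℚ) / b) f := by
  have hb' : (b : ℚ) ≠ 0 := by exact_mod_cast hb
  unfold hom
  rw [aeval_eq_sum_range' (n := n + 1) (by omega), Finset.mul_sum]
  push_cast
  apply Finset.sum_congr rfl
  intro i hi
  rw [mem_range] at hi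
  rw [zsmul_eq_mul, div_pow]
  have : (b : ℚ) ^ n = b ^ (n - i) * b ^ i := by rw [← pow_add]; congr 1; omega
  rw [this]
  field_simp

lemma norm_eq_one_of {x : ℤ} (h : ¬ (p : ℤ) ∣ x) : ‖(x : ℚ_[p])‖ = 1 := by
  have h1 : ‖(x : ℚ_[p])‖ ≤ 1 := Padic.norm_int_le_one x
  rcases h1.lt_or_eq with h2 | h2
  · exact absurd (Padic.norm_intCast_lt_one_iff.1 h2) h
  · exact h2

/-- **The local analysis.** -/
theorem val_ne {P Q f g U V : ℤ[X]} {k c : ℤ} (hUV : P * U + Q * V = C k)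
    (hfg : f * g = C c * (P * Q)) {n : ℕ}
    (hn : n = f.natDegree + if P.natDegree = Q.natDegree then 0 else 1)
    (hk : ¬ (p : ℤ) ∣ k) (hc : ¬ (p : ℤ) ∣ c) (hf : ¬ (p : ℤ) ∣ f.leadingCoeff)
    (hPl : ¬ (p : ℤ) ∣ P.leadingCoeff) (hQl : ¬ (p : ℤ) ∣ Q.leadingCoeff)
    (q : ℚ) (hP : aeval q P ≠ 0) (hQ : aeval q Q ≠ 0)
    (hd : (p : ℤ) ∣ hom f n q.num q.den) : padicValRat p (aeval q P / aeval q Q) ≠ 0 := by
  intro hv
  have hr0 : aeval q P / aeval q Q ≠ 0 := div_ne_zero hP hQ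
  have h1 : ‖((aeval q P / aeval q Q : ℚ) : ℚ_[p])‖ = 1 := by
    rw [Padic.eq_padicNorm, padicNorm.eq_zpow_of_nonzero hr0, hv]
    simp
  set z : ℚ_[p] := (q : ℚ_[p]) with hz
  have h2 : ‖aeval z P‖ = ‖aeval z Q‖ := by
    rw [Rat.cast_div, coe_aeval, coe_aeval, norm_div] at h1
    have hQ' : aeval z Q ≠ 0 := by
      rw [hz, ← coe_aeval]
      exact_mod_cast hQ
    rw [div_eq_one_iff_eq (norm_ne_zero_iff.2 hQ')] at h1
    exact h1
  have hden : ((q.den : ℤ)) ≠ 0 := by exact_mod_cast q.den_nz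
  have hfn : f.natDegree ≤ n := by omega
  have hhom := hom_eq f hfn q.num q.den hden
  have hqq : (q.num : ℚ) / ((q.den : ℤ) : ℚ) = q := by
    push_cast
    exact Rat.num_div_den q
  rw [hqq] at hhom
  have hhom' : ((hom f n q.num q.den : ℤ) : ℚ_[p]) = ((q.den : ℤ) : ℚ_[p]) ^ n * aeval z f := by
    rw [hz, ← coe_aeval]
    exact_mod_cast congrArg (fun x : ℚ => (x : ℚ_[p])) hhom
  have hlt : ‖((hom f n q.num q.den : ℤ) : ℚ_[p])‖ < 1 := Padic.norm_intCast_lt_one_iff.2 hd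
  by_cases hpb : (p : ℤ) ∣ (q.den : ℤ)
  · -- the prime divides the denominator
    have hpa : ¬ (p : ℤ) ∣ q.num := by
      intro hpa
      have h3 : p ∣ q.num.natAbs := Int.natCast_dvd.1 hpa
      have h4 : p ∣ q.den := by exact_mod_cast hpb
      have := Nat.dvd_gcd h3 h4
      rw [q.reduced] at this
      exact hp.out.one_lt.ne' (Nat.dvd_one.1 this)
    have hna : ‖((q.num : ℤ) : ℚ_[p])‖ = 1 := norm_eq_one_of hpa
    have hnb : ‖((q.den : ℤ) : ℚ_[p])‖ < 1 := Padic.norm_intCast_lt_one_iff.2 hpb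
    have hnb0 : 0 < ‖((q.den : ℤ) : ℚ_[p])‖ := norm_pos_iff.2 (by exact_mod_cast hden)
    have hzq : ((q.den : ℤ) : ℚ_[p]) * z = ((q.num : ℤ) : ℚ_[p]) := by
      have h3 : ((q.den : ℤ) : ℚ) * q = q.num := by
        push_cast
        exact Rat.den_mul_eq_num q
      have h4 := congrArg (fun x : ℚ => (x : ℚ_[p])) h3
      push_cast at h4
      rw [hz]
      exact_mod_cast h4
    have h5 : ‖((q.den : ℤ) : ℚ_[p])‖ * ‖z‖ = 1 := by rw [← norm_mul, hzq, hna]
    have hz1 : 1 < ‖z‖ := by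
      by_contra hcon
      push Not at hcon
      nlinarith [norm_nonneg z]
    have hPd := norm_aeval_big hz1 P (norm_eq_one_of hPl)
    have hQd := norm_aeval_big hz1 Q (norm_eq_one_of hQl)
    have hfd := norm_aeval_big hz1 f (norm_eq_one_of hf)
    rw [hPd, hQd] at h2
    have hdeg : P.natDegree = Q.natDegree := pow_right_injective₀ (by positivity) hz1.ne' h2
    rw [if_pos hdeg, add_zero] at hn
    rw [hhom', norm_mul, norm_pow, hfd, hn, ← mul_pow, h5, one_pow] at hlt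
    exact lt_irrefl _ hlt
  · have hnb : ‖((q.den : ℤ) : ℚ_[p])‖ = 1 := norm_eq_one_of hpb
    have hz1 : ‖z‖ ≤ 1 := by
      rw [hz]
      exact Padic.norm_rat_le_one (fun h => hpb (by exact_mod_cast h))
    rw [hhom', norm_mul, norm_pow, hnb, one_pow, one_mul] at hlt
    have h3 := congrArg (aeval z) hfg
    rw [map_mul, map_mul, map_mul, aeval_C] at h3
    have h4 := congrArg norm h3
    rw [norm_mul, norm_mul, norm_mul] at h4
    have hcn : ‖(algebraMap ℤ ℚ_[p]) c‖ = 1 := norm_eq_one_of hc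
    rw [hcn, one_mul, h2] at h4
    have h5 := congrArg (aeval z) hUV
    rw [map_add, map_mul, map_mul, aeval_C] at h5
    have hkn : ‖(algebraMap ℤ ℚ_[p]) k‖ = 1 := norm_eq_one_of hk
    have h6 : ‖aeval z P * aeval z U + aeval z Q * aeval z V‖ ≤ ‖aeval z Q‖ := by
      refine (IsUltrametricDist.norm_add_le_max _ _).trans (max_le ?_ ?_)
      · rw [norm_mul, h2]
        exact mul_le_of_le_one_right (norm_nonneg _) (norm_aeval_le hz1 U)
      · rw [norm_mul]
        exact mul_le_of_le_one_right (norm_nonneg _) (norm_aeval_le hz1 V)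
    rw [h5, hkn] at h6
    have h7 : ‖aeval z Q‖ = 1 := le_antisymm (norm_aeval_le hz1 Q) h6
    rw [h7, one_mul] at h4
    have h8 : ‖aeval z f‖ * ‖aeval z g‖ < 1 := by
      have := norm_aeval_le hz1 g
      nlinarith [norm_nonneg (aeval z f), norm_nonneg (aeval z g)]
    rw [h4] at h8
    exact lt_irrefl _ h8

/-- **Finiteness**, for integer polynomials -/
theorem finite_int {P Q f g U V : ℤ[X]} {k c : ℤ} (hk : k ≠ 0) (hc : c ≠ 0) (hP0 : P ≠ 0)
    (hQ0 : Q ≠ 0) (hUV : P * U + Q * V = C k)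
    (hfg : f * g = C c * (P * Q)) {n : ℕ}
    (hn : n = f.natDegree + if P.natDegree = Q.natDegree then 0 else 1) (hn3 : 3 ≤ n)
    (hf : Squarefree (f.map (Int.castRingHom ℚ))) (S : Finset ℕ) :
    {q : ℚ | aeval q P ≠ 0 ∧ aeval q Q ≠ 0 ∧
      ∀ p : ℕ, p.Prime → padicValRat p (aeval q P / aeval q Q) ≠ 0 → p ∈ S}.Finite := by
  classical
  have hf0 : f ≠ 0 := by
    rintro rfl
    rw [zero_mul] at hfg
    have : C c * (P * Q) ≠ 0 := mul_ne_zero (C_ne_zero.2 hc) (mul_ne_zero hP0 hQ0)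
    exact this hfg.symm
  have hsq : Sqf f n := ⟨hf, by omega, by split_ifs at hn <;> omega⟩
  set M : ℤ := k * c * f.leadingCoeff * P.leadingCoeff * Q.leadingCoeff with hM
  have hM0 : M ≠ 0 := by
    rw [hM]
    exact mul_ne_zero (mul_ne_zero (mul_ne_zero (mul_ne_zero hk hc) (leadingCoeff_ne_zero.2 hf0))
      (leadingCoeff_ne_zero.2 hP0)) (leadingCoeff_ne_zero.2 hQ0)
  obtain ⟨B, -, hB⟩ := Pool.Agent.TH498.HF.TM f n hsq hn3 M.natAbs
    (Nat.one_le_iff_ne_zero.2 (Int.natAbs_ne_zero.2 hM0))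
  by_contra hinf
  obtain ⟨s, hs, hcard⟩ := Set.Infinite.exists_subset_card_eq hinf (B ^ (S.card + 1) + 1)
  have h1 := hB S (s.image (fun q : ℚ => (q.num, (q.den : ℤ)))) (by
    intro x hx
    rw [Finset.mem_image] at hx
    obtain ⟨q, hq, rfl⟩ := hx
    obtain ⟨hqP, hqQ, hqS⟩ := hs hq
    have hden : ((q.den : ℤ)) ≠ 0 := by exact_mod_cast q.den_nz
    refine ⟨?_, ?_, ?_⟩
    · rw [Int.isCoprime_iff_gcd_eq_one]
      exact q.reduced
    · intro h0
      have h2 := hom_eq f (n := n) (by omega) q.num q.den hden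
      have hqq : (q.num : ℚ) / ((q.den : ℤ) : ℚ) = q := by
        push_cast
        exact Rat.num_div_den q
      rw [hqq] at h2
      change ((hom f n q.num q.den : ℤ)) = 0 at h0
      rw [h0, Int.cast_zero] at h2
      have h3 : aeval q f = 0 := by
        rcases mul_eq_zero.1 h2.symm with h | h
        · exact absurd h (pow_ne_zero _ (by exact_mod_cast hden))
        · exact h
      have h4 := congrArg (aeval q) hfg
      rw [map_mul, h3, zero_mul, map_mul, map_mul, aeval_C] at h4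
      exact mul_ne_zero (by simpa using hc : (algebraMap ℤ ℚ) c ≠ 0) (mul_ne_zero hqP hqQ) h4.symm
    · intro p hp hpd
      have : Fact p.Prime := ⟨hp⟩
      by_cases hpM : p ∣ M.natAbs
      · exact Or.inr hpM
      · left
        have hpM' : ¬ (p : ℤ) ∣ M := fun h => hpM (Int.natCast_dvd.1 h)
        apply hqS p hp
        refine val_ne (p := p) hUV hfg hn ?_ ?_ ?_ ?_ ?_ q hqP hqQ (Int.natCast_dvd.2 hpd)
        · exact fun h => hpM' (by
            rw [hM]
            exact (((h.mul_right _).mul_right _).mul_right _).mul_right _)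
        · exact fun h => hpM' (by
            rw [hM]
            exact (((h.mul_left _).mul_right _).mul_right _).mul_right _)
        · exact fun h => hpM' (by
            rw [hM]
            exact ((h.mul_left _).mul_right _).mul_right _)
        · exact fun h => hpM' (by
            rw [hM]
            exact (h.mul_left _).mul_right _)
        · exact fun h => hpM' (by
            rw [hM]
            exact h.mul_left _))
  rw [Finset.card_image_of_injective, hcard] at h1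
  · omega
  · intro q q' h
    rw [Prod.mk.injEq] at h
    exact Rat.ext h.1 (by exact_mod_cast h.2)

end Pool.Agent.U945.RV
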